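import Mathlib
import Pool.Agent.P8H96.RR.Stm
import Pool.Agent.R383.Disc.Scale

/-!
# Project RR, parts DSC and TRX (helper32, for helper96)

The truncated energy in terms of the discriminant, and the regularized energy in terms of the truncated
energy, for monic complex polynomials.
-/

set_option autoImplicit false

open Finset Polynomial Pool.Agent.H388SL Pool.Agent.Y947.DL Pool.Agent.R383.Disc

namespace Pool.Agent.P8H32.RR

open Pool.Agent.P8H96.RR

lemma fam (s : Multiset ℂ) : ∃ b : Fin s.card → ℂ, s = (Finset.univ : Finset (Fin s.card)).val.map b := by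
  induction s using Quotient.inductionOn with
  | _ l =>
    refine ⟨l.get, ?_⟩
    have h := Fin.univ_val_map (l.get)
    have h2 := List.ofFn_get l
    rw [h2] at h
    exact h.symm

lemma sum_fam {s : Multiset ℂ} {n : ℕ} {b : Fin n → ℂ} (h : s = (Finset.univ : Finset (Fin n)).val.map b)
    (φ : ℂ → ℝ) : (s.map φ).sum = ∑ i, φ (b i) := by
  subst h
  rw [Multiset.map_map]
  rfl

/-- a monic polynomial and the family of its zeros -/
lemma exists_fam (P : ℂ[X]) (hm : P.Monic) : ∃ b : Fin P.natDegree → ℂ,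
    P.roots = (Finset.univ : Finset (Fin P.natDegree)).val.map b ∧ P = ∏ i, (X - C (b i)) := by
  have hs := IsAlgClosed.splits P
  have hc : P.roots.card = P.natDegree := hs.natDegree_eq_card_roots.symm
  obtain ⟨b, hb⟩ := fam P.roots
  obtain ⟨n, hn⟩ : ∃ n, n = P.roots.card := ⟨_, rfl⟩
  have key : ∀ n, P.roots.card = n → ∃ b : Fin n → ℂ,
      P.roots = (Finset.univ : Finset (Fin n)).val.map b := by
    rintro n rfl
    exact fam P.roots
  obtain ⟨b, hb⟩ := key _ hc
  refine ⟨b, hb, ?_⟩
  conv_lhs => rw [hs.eq_prod_roots_of_monic hm, hb, Multiset.map_map]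
  rfl

lemma TRU_fam {P : ℂ[X]} {b : Fin P.natDegree → ℂ}
    (hb : P.roots = (Finset.univ : Finset (Fin P.natDegree)).val.map b) :
    TRU P = ∑ i, ∑ j, -Real.log (max ‖b i - b j‖ (1 / P.natDegree)) := by
  unfold TRU
  rw [sum_fam hb]
  refine Finset.sum_congr rfl fun i _ => ?_
  rw [sum_fam hb]

/-- the discriminant in terms of the zeros -/
lemma discr_fam {P : ℂ[X]} (hm : P.Monic) (hpos : 0 < P.natDegree) {b : Fin P.natDegree → ℂ}
    (hb : P.roots = (Finset.univ : Finset (Fin P.natDegree)).val.map b) (hP : P = ∏ i, (X - C (b i))) :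
    ‖P.discr‖ = ∏ i, ∏ j ∈ Finset.univ.erase i, ‖b i - b j‖ := by
  have h1 := resultant_deriv (f := P) (natDegree_pos_iff_degree_pos.mp hpos)
  rw [hm.leadingCoeff, mul_one] at h1
  have h3 := resultant_eq_prod_eval P (derivative P) (P.natDegree - 1) (natDegree_derivative_le _)
    (IsAlgClosed.splits _)
  rw [hm.leadingCoeff, one_pow, one_mul] at h3
  rw [h3] at h1
  have h4 := congrArg norm h1
  rw [norm_mul, norm_pow, norm_neg, norm_one, one_pow, one_mul] at h4
  rw [← h4, hb, Multiset.map_map]
  have h8 : (Multiset.map ((fun x => eval x (derivative P)) ∘ b) Finset.univ.val).prod =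
      ∏ i, ∏ j ∈ Finset.univ.erase i, (b i - b j) := by
    rw [Finset.prod_eq_multiset_prod]
    congr 1
    refine Multiset.map_congr rfl fun i _ => ?_
    rw [Function.comp_apply]
    have h9 : derivative P = derivative (∏ i, (X - C (b i))) := congrArg _ hP
    rw [h9, Polynomial.derivative_prod_finset, Polynomial.eval_finsetSum]
    rw [Finset.sum_eq_single i]
    · rw [Polynomial.eval_mul, Polynomial.eval_prod]
      simp
    · intro j _ hj
      rw [Polynomial.eval_mul, Polynomial.eval_prod]
      rw [Finset.prod_eq_zero (i := i)]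
      · simp
      · simp [Ne.symm hj]
      · simp
    · simp
  rw [h8, norm_prod]
  refine Finset.prod_congr rfl fun i _ => ?_
  rw [norm_prod]

theorem dsc : S_DSC := by
  intro P hm hpos hnd
  obtain ⟨b, hb, hP⟩ := exists_fam P hm
  have hinj : Function.Injective b := by
    rw [hb] at hnd
    intro i j hij
    exact Multiset.inj_on_of_nodup_map hnd i (Finset.mem_univ_val i) j (Finset.mem_univ_val j) hij
  have hn0 : (0:ℝ) < P.natDegree := by exact_mod_cast hpos
  have hne : ∀ i : Fin P.natDegree, ∀ j ∈ Finset.univ.erase i, ‖b i - b j‖ ≠ 0 := by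
    intro i j hj h0
    exact (Finset.ne_of_mem_erase hj) (hinj (sub_eq_zero.mp (norm_eq_zero.mp h0))).symm
  have hcard : ((Finset.univ : Finset (Fin P.natDegree)).card : ℝ) = P.natDegree := by simp
  rw [TRU_fam hb, discr_fam hm hpos hb hP,
    Real.log_prod (fun i _ => Finset.prod_ne_zero_iff.mpr (hne i))]
  have e1 : (P.natDegree : ℝ) * Real.log P.natDegree =
      ∑ _i : Fin P.natDegree, Real.log P.natDegree := by
    rw [Finset.sum_const, nsmul_eq_mul, hcard]
  rw [e1, ← Finset.sum_sub_distrib]
  refine Finset.sum_le_sum fun i _ => ?_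
  rw [Real.log_prod (hne i), ← Finset.add_sum_erase _ _ (Finset.mem_univ i), sub_self, norm_zero,
    sub_eq_add_neg, ← Finset.sum_neg_distrib]
  apply add_le_add
  · rw [max_eq_right (by positivity), one_div, Real.log_inv, neg_neg]
  · refine Finset.sum_le_sum fun j hj => ?_
    rw [neg_le_neg_iff]
    apply Real.log_le_log
    · exact lt_of_le_of_ne (norm_nonneg _) (hne i j hj).symm
    · exact le_max_left _ _

lemma EN_fam {P : ℂ[X]} {b : Fin P.natDegree → ℂ}
    (hb : P.roots = (Finset.univ : Finset (Fin P.natDegree)).val.map b) (s : ℝ) :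
    EN P s = En (fun i => H388SL.refl (b i)) s := by
  unfold EN En
  rw [sum_fam hb]
  refine Finset.sum_congr rfl fun i _ => ?_
  rw [sum_fam hb]

lemma mahler_fam {P : ℂ[X]} (hm : P.Monic) {b : Fin P.natDegree → ℂ}
    (hb : P.roots = (Finset.univ : Finset (Fin P.natDegree)).val.map b) :
    Real.log P.mahlerMeasure = ∑ i, Real.log (max 1 ‖b i‖) := by
  rw [mahlerMeasure_eq_leadingCoeff_mul_prod_roots, hm.leadingCoeff, norm_one, one_mul, hb,
    Multiset.map_map]
  have h1 : (Multiset.map ((fun a : ℂ => max 1 ‖a‖) ∘ b) (Finset.univ : Finset (Fin P.natDegree)).val).prod =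
      ∏ i, max 1 ‖b i‖ := rfl
  rw [h1, Real.log_prod]
  intro i _
  positivity

lemma EN_le_TRU {P : ℂ[X]} (hm : P.Monic) (h2 : 2 ≤ P.natDegree) :
    EN P (1 - 1 / P.natDegree) ≤ TRU P + 2 * P.natDegree * Real.log P.mahlerMeasure + P.natDegree := by
  obtain ⟨b, hb, hP⟩ := exists_fam P hm
  rw [EN_fam hb, TRU_fam hb, mahler_fam hm hb]
  have hcard : ((Finset.univ : Finset (Fin P.natDegree)).card : ℝ) = P.natDegree := by simp
  have hn2 : (2:ℝ) ≤ P.natDegree := by exact_mod_cast h2
  obtain ⟨n, hn⟩ : ∃ n : ℝ, n = P.natDegree := ⟨_, rfl⟩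
  rw [← hn] at hn2 hcard ⊢
  have hn0 : 0 < n := by linarith
  have hinv : 0 < 1 / n := by positivity
  have hinv1 : 1 / n ≤ 1 := by rw [div_le_one hn0]; linarith
  have h1 : ∀ i ∈ (Finset.univ : Finset (Fin P.natDegree)), ∀ j ∈ (Finset.univ : Finset (Fin P.natDegree)),
      -Real.log ‖1 - ((1 - 1 / n : ℝ) : ℂ) * (H388SL.refl (b i) * starRingEnd ℂ (H388SL.refl (b j)))‖ ≤
      -Real.log (max ‖b i - b j‖ (1 / n)) + Real.log (max 1 ‖b i‖) + Real.log (max 1 ‖b j‖) + 1 / n := by
    intro i _ j _
    have hb : ‖H388SL.refl (b i) * starRingEnd ℂ (H388SL.refl (b j))‖ ≤ 1 := by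
      rw [norm_mul, RCLike.norm_conj]
      exact mul_le_one₀ (norm_refl_le _) (norm_nonneg _) (norm_refl_le _)
    have h2 := norm_one_sub_ge (show (0:ℝ) ≤ 1 - 1 / n by linarith) hb
    rcases le_or_gt (1 / n) ‖b i - b j‖ with h3 | h3
    · rw [max_eq_left h3]
      have hne : b i ≠ b j := by
        intro h4
        rw [h4, sub_self, norm_zero] at h3
        linarith
      have h5 := pair_log hne (show (0:ℝ) ≤ 1 - 1 / n by linarith) (by linarith)
      linarith
    · rw [max_eq_right h3.le]
      have h4 : Real.log (1 / n) ≤ Real.log ‖1 - ((1 - 1 / n : ℝ) : ℂ) *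
          (H388SL.refl (b i) * starRingEnd ℂ (H388SL.refl (b j)))‖ := by
        apply Real.log_le_log hinv
        linarith
      have h5 : 0 ≤ Real.log (max 1 ‖b i‖) := Real.log_nonneg (le_max_left _ _)
      have h6 : 0 ≤ Real.log (max 1 ‖b j‖) := Real.log_nonneg (le_max_left _ _)
      linarith
  unfold En
  refine (Finset.sum_le_sum fun i hi => Finset.sum_le_sum fun j hj => h1 i hi j hj).trans ?_
  simp only [Finset.sum_add_distrib, Finset.sum_const, nsmul_eq_mul, hcard, ← Finset.mul_sum]
  have e4 : n * (n * (1 / n)) = n := by field_simp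
  rw [e4]
  apply le_of_eq
  ring

theorem trx : S_TRX := by
  refine ⟨49, by norm_num, ?_⟩
  intro P hm hpos
  obtain ⟨b, hb, hP⟩ := exists_fam P hm
  have hM : 0 ≤ Real.log P.mahlerMeasure := by
    rw [mahler_fam hm hb]
    exact Finset.sum_nonneg fun i _ => Real.log_nonneg (le_max_left _ _)
  rcases Nat.lt_or_ge 1 P.natDegree with h2 | h1
  · have hE := EN_le_TRU hm h2
    have hn2 : (2:ℝ) ≤ P.natDegree := by exact_mod_cast h2
    rw [EN_fam hb] at hE
    unfold EV
    rw [EN_fam hb]
    obtain ⟨n, hn⟩ : ∃ n : ℝ, n = P.natDegree := ⟨_, rfl⟩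
    have hcard : (Fintype.card (Fin P.natDegree) : ℝ) = n := by rw [hn]; simp
    rw [← hn] at hn2 hE ⊢
    have hinv : 1 / n ≤ 1 / 2 := one_div_le_one_div_of_le (by norm_num) hn2
    have hinv0 : 0 < 1 / n := by positivity
    have e2 : 1 / (2 * n) = (1 / n) / 2 := by field_simp
    have hs := scale (b := fun i => H388SL.refl (b i)) (fun i => norm_refl_le _)
      (s := 1 - 1 / n) (s' := 1 - 1 / (2 * n)) (by linarith) (by rw [e2]; linarith) (by rw [e2]; linarith)
    have e3 : (1 - (1 - 1 / n)) / (1 - (1 - 1 / (2 * n))) = 2 := by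
      rw [sub_sub_cancel, sub_sub_cancel]
      field_simp
    rw [e3, hcard] at hs
    have hl : Real.log 2 ≤ 1 := by have := Real.log_two_lt_d9; linarith
    have hl0 : 0 ≤ Real.log 2 := Real.log_nonneg (by norm_num)
    have e4 : 2 * (1 - (1 - 1 / n)) * n ^ 2 = 2 * n := by field_simp; ring
    rw [e4] at hs
    have hE0 := En_nonneg (b := fun i => H388SL.refl (b i)) (fun i => norm_refl_le _)
      (s := 1 - 1 / n) (by linarith) (by linarith)
    set E := En (fun i => H388SL.refl (b i)) (1 - 1 / n) with hEdef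
    have hlog : Real.log 2 * (2 * n + 4 * E) ≤ (7/10) * (2 * n + 4 * E) := by
      apply mul_le_mul_of_nonneg_right _ (by positivity)
      have := Real.log_two_lt_d9; linarith
    have e5 : 7 * (1 + Real.log 2) * (2 * n + 4 * E) =
        7 * (2 * n + 4 * E) + 7 * (Real.log 2 * (2 * n + 4 * E)) := by ring
    rw [e5] at hs
    linarith
  · have h1' : P.natDegree = 1 := by omega
    have hT : TRU P = 0 := by
      rw [TRU_fam hb]
      apply Finset.sum_eq_zero
      intro i _
      apply Finset.sum_eq_zero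
      intro j _
      have hij : i = j := by
        apply Fin.ext
        have := i.2
        have := j.2
        omega
      rw [hij, sub_self, norm_zero, h1']
      norm_num
    have hE : EV P ≤ Real.log 2 := by
      unfold EV
      rw [EN_fam hb]
      unfold En
      have h3 : ∀ i : Fin P.natDegree, ∀ j : Fin P.natDegree,
          -Real.log ‖1 - ((1 - 1 / (2 * (P.natDegree : ℝ)) : ℝ) : ℂ) *
            (H388SL.refl (b i) * starRingEnd ℂ (H388SL.refl (b j)))‖ ≤ Real.log 2 := by
        intro i j
        have hb : ‖H388SL.refl (b i) * starRingEnd ℂ (H388SL.refl (b j))‖ ≤ 1 := by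
          rw [norm_mul, RCLike.norm_conj]
          exact mul_le_one₀ (norm_refl_le _) (norm_nonneg _) (norm_refl_le _)
        rw [h1']
        have e : (1 - 1 / (2 * ((1 : ℕ) : ℝ))) = 1 / 2 := by norm_num
        rw [e]
        have h2 := norm_one_sub_ge (show (0:ℝ) ≤ 1 / 2 by norm_num) hb
        have h4 : Real.log (1 / 2) ≤ Real.log ‖1 - ((1 / 2 : ℝ) : ℂ) *
            (H388SL.refl (b i) * starRingEnd ℂ (H388SL.refl (b j)))‖ := by
          apply Real.log_le_log (by norm_num)
          linarith
        rw [one_div, Real.log_inv] at h4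
        rw [one_div]
        linarith
      refine (Finset.sum_le_sum fun i _ => Finset.sum_le_sum fun j _ => h3 i j).trans ?_
      simp only [Finset.sum_const, Finset.card_univ, Fintype.card_fin, h1', nsmul_eq_mul]
      norm_num
    have := Real.log_two_lt_d9
    rw [hT, h1']
    push_cast
    nlinarith

end Pool.Agent.P8H32.RR
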